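import Pool.Agent.H13.LN.Targets

/-!
# Row BL2: the blocks of a word given by (C2)
-/

set_option autoImplicit false

namespace Pool.Agent.H34.LNT

open Finset Pool.Agent.H59.LIN Pool.Agent.H13.LN

theorem ofNat_succ' (n m : ℕ) : Fin.ofNat (n + 1) m + 1 = Fin.ofNat (n + 1) (m + 1) := by
  apply Fin.ext
  rw [Fin.val_add, Fin.val_ofNat, Fin.val_ofNat, Nat.add_mod m 1 (n + 1)]
  rfl

theorem iter_tau {n : ℕ} (τ : Equiv.Perm (Fin (n + 1))) (f : Wd n)
    (h : ∀ j : Fin (n + 1), run f (τ j) = τ (finRotate (n + 1) j)) (j : Fin (n + 1)) (k : ℕ) :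
    (run f)^[k] (τ j) = τ (Fin.ofNat (n + 1) ((j : ℕ) + k)) := by
  induction k with
  | zero =>
    rw [Function.iterate_zero, id_eq]
    congr 1
    exact Fin.ext (Nat.mod_eq_of_lt j.2).symm
  | succ k ih =>
    rw [Function.iterate_succ_apply', ih, h, finRotate_apply, ofNat_succ', Nat.add_assoc]

theorem bl2' : T_BL2 := by
  intro n L τ f hL h1 h2
  have hit := iter_tau τ f h2
  refine ⟨fun p => ⟨(τ.symm p : ℕ) + (n + 1 - (τ.symm 0 : ℕ)), ?_⟩, ?_⟩
  · have h3 := hit (τ.symm 0) ((τ.symm p : ℕ) + (n + 1 - (τ.symm 0 : ℕ)))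
    rw [Equiv.apply_symm_apply] at h3
    rw [h3]
    have h4 : Fin.ofNat (n + 1) ((τ.symm 0 : ℕ) + ((τ.symm p : ℕ) + (n + 1 - (τ.symm 0 : ℕ)))) =
        τ.symm p := by
      apply Fin.ext
      rw [Fin.val_ofNat]
      have h5 : (τ.symm 0 : ℕ) + ((τ.symm p : ℕ) + (n + 1 - (τ.symm 0 : ℕ))) =
          (τ.symm p : ℕ) + (n + 1) := by
        have := (τ.symm 0).2
        omega
      rw [h5, Nat.add_mod_right, Nat.mod_eq_of_lt (τ.symm p).2]
    rw [h4, Equiv.apply_symm_apply]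
  · refine List.ext_getElem ?_ ?_
    · rw [hL]
      exact List.length_ofFn
    · intro i hi1 hi2
      have hi : i < n + 1 := hL ▸ hi2
      have h3 := h1 ⟨i, hi⟩
      have h4 : L[i]? = some L[i] := List.getElem?_eq_getElem hi2
      have h5 : L[i] = ev 0 f (τ ⟨i, hi⟩) := by
        have h6 : some L[i] = some (ev 0 f (τ ⟨i, hi⟩)) := by rw [← h4, ← h3]
        exact Option.some.inj h6
      have h6 : (blk f (τ 0))[i] = ev 0 f ((run f)^[i] (τ 0)) := by
        unfold blk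
        rw [List.getElem_ofFn]
      rw [h6, h5, hit]
      congr 2
      apply Fin.ext
      rw [Fin.val_ofNat, Fin.val_zero, Nat.zero_add, Nat.mod_eq_of_lt hi]

theorem bl2 (_hRUN : T_RUN) : T_BL2 := bl2'

end Pool.Agent.H34.LNT
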