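import Pool.Agent.H34.LNT.BL2

/-!
# Row HEM: insertion of an empty block
-/

set_option autoImplicit false

namespace Pool.Agent.H34.LNT

open Finset Pool.Agent.H59.LIN Pool.Agent.H13.LN

theorem tr_cast {n : ℕ} (i : Fin n) (p : Fin (n + 1)) :
    tr i.castSucc p.castSucc = (tr i p).castSucc := by
  unfold tr
  rw [Fin.succ_castSucc]
  exact (Fin.castSucc_injective _).swap_apply _ _ _

theorem tr_last {n : ℕ} (i : Fin n) : tr i.castSucc (Fin.last (n + 1)) = Fin.last (n + 1) := by
  unfold tr
  rw [Fin.succ_castSucc]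
  exact Equiv.swap_apply_of_ne_of_ne (Fin.castSucc_lt_last _).ne' (Fin.castSucc_lt_last _).ne'

theorem up_cons {n : ℕ} (i : Fin n) (b : Bool) (f : Wd n) :
    up ((i, b) :: f) = (i.castSucc, b) :: up f := rfl

theorem run_up_cast {n : ℕ} (f : Wd n) (p : Fin (n + 1)) :
    run (up f) p.castSucc = (run f p).castSucc := by
  induction f generalizing p with
  | nil => rfl
  | cons x f ih =>
    obtain ⟨i, b⟩ := x
    rw [up_cons]
    show run (up f) (tr i.castSucc p.castSucc) = (run f (tr i p)).castSucc
    rw [tr_cast, ih]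

theorem run_up_last {n : ℕ} (f : Wd n) : run (up f) (Fin.last (n + 1)) = Fin.last (n + 1) := by
  induction f with
  | nil => rfl
  | cons x f ih =>
    obtain ⟨i, b⟩ := x
    rw [up_cons]
    show run (up f) (tr i.castSucc (Fin.last (n + 1))) = _
    rw [tr_last, ih]

theorem ev_up_cast {n : ℕ} (f : Wd n) (k : ℕ) (p : Fin (n + 1)) :
    ev k (up f) p.castSucc = ev k f p := by
  induction f generalizing p k with
  | nil => rfl
  | cons x f ih =>
    obtain ⟨i, b⟩ := x
    rw [up_cons]
    show (if b = true ∧ (p.castSucc = i.castSucc.castSucc ∨ p.castSucc = i.castSucc.succ) then [k]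
      else []) ++ ev (if b then k + 1 else k) (up f) (tr i.castSucc p.castSucc) =
      (if b = true ∧ (p = i.castSucc ∨ p = i.succ) then [k] else []) ++
        ev (if b then k + 1 else k) f (tr i p)
    rw [tr_cast, ih, Fin.succ_castSucc]
    have h1 : (b = true ∧ (p.castSucc = i.castSucc.castSucc ∨ p.castSucc = i.succ.castSucc)) ↔
        (b = true ∧ (p = i.castSucc ∨ p = i.succ)) := by
      rw [(Fin.castSucc_injective _).eq_iff, (Fin.castSucc_injective _).eq_iff]
    simp only [h1]

theorem ev_up_last {n : ℕ} (f : Wd n) (k : ℕ) : ev k (up f) (Fin.last (n + 1)) = [] := by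
  induction f generalizing k with
  | nil => rfl
  | cons x f ih =>
    obtain ⟨i, b⟩ := x
    rw [up_cons]
    show (if b = true ∧ (Fin.last (n + 1) = i.castSucc.castSucc ∨
      Fin.last (n + 1) = i.castSucc.succ) then [k]
      else []) ++ ev (if b then k + 1 else k) (up f) (tr i.castSucc (Fin.last (n + 1))) = []
    rw [tr_last, ih, List.append_nil, Fin.succ_castSucc]
    exact if_neg fun h => by
      rcases h.2 with h | h
      · exact (Fin.castSucc_lt_last _).ne' h
      · exact (Fin.castSucc_lt_last _).ne' h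

theorem hem (hRUN : T_RUN) (hC2 : T_C2) (hBL2 : T_BL2) (_hBLV : T_BLV) (hEVA : T_EVA) : T_HEM := by
  intro B _ d g H hGH L hL
  obtain ⟨n, hn⟩ : ∃ n, L.length = n + 1 :=
    Nat.exists_eq_add_one.mpr (List.length_pos_of_ne_nil hL.ne)
  set τ : Equiv.Perm (Fin (n + 1)) := Equiv.swap 0 (Fin.last n) with hτ
  have hτ0 : τ 0 = Fin.last n := Equiv.swap_apply_left _ _
  obtain ⟨f, hd, h1, h2⟩ := hC2 d n L τ hL hn
  obtain ⟨hK, hb⟩ := hBL2 n L τ f hn h1 h2
  have hit := iter_tau τ f h2
  rw [hτ0] at hb
  have hK' : Knot (up f ++ [(Fin.last n, false)]) := hRUN.2.2.2.2.2.1 n f false hK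
  have hnu : nd (up f) = nd f := by
    unfold nd up
    rw [List.countP_map]
    rfl
  have hd' : nd (up f ++ [(Fin.last n, false)]) = d := by
    unfold nd at hnu hd ⊢
    rw [List.countP_append, hnu, hd]
    rfl
  have hev : ∀ p, ev 0 (up f ++ [(Fin.last n, false)]) p = ev 0 (up f) p := by
    intro p
    rw [hEVA.1]
    have h3 : ∀ (k : ℕ) (q : Fin (n + 1 + 1)), ev k [(Fin.last n, false)] q = [] := by
      intro k q
      simp [ev]
    rw [h3, List.append_nil]
  have hrun : ∀ p, run (up f ++ [(Fin.last n, false)]) p = tr (Fin.last n) (run (up f) p) := by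
    intro p
    rw [hRUN.1]
    rfl
  have hr0 : run (up f ++ [(Fin.last n, false)]) (Fin.last (n + 1)) = (Fin.last n).castSucc := by
    rw [hrun, run_up_last]
    exact Equiv.swap_apply_right _ _
  have hr1 : ∀ q, run f q ≠ Fin.last n →
      run (up f ++ [(Fin.last n, false)]) q.castSucc = (run f q).castSucc := by
    intro q hq
    rw [hrun, run_up_cast]
    refine Equiv.swap_apply_of_ne_of_ne (fun h => hq (Fin.castSucc_injective _ h)) ?_
    rw [Fin.succ_last]
    exact (Fin.castSucc_lt_last _).ne
  have hr2 : ∀ j : ℕ, j ≤ n → (run (up f ++ [(Fin.last n, false)]))^[j + 1] (Fin.last (n + 1)) =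
      ((run f)^[j] (Fin.last n)).castSucc := by
    intro j
    induction j with
    | zero =>
      intro _
      exact hr0
    | succ j ih =>
      intro hj
      rw [Function.iterate_succ_apply', ih (by omega), hr1, ← Function.iterate_succ_apply' (run f)]
      rw [← Function.iterate_succ_apply' (run f), ← hτ0, hit]
      intro h
      have h3 := τ.injective h
      have h4 := congrArg Fin.val h3
      rw [Fin.val_ofNat, Fin.val_zero, Nat.zero_add, Nat.mod_eq_of_lt (by omega)] at h4
      omega
  have hblk : blk (up f ++ [(Fin.last n, false)]) (Fin.last (n + 1)) = [] :: L := by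
    rw [← hb]
    unfold blk
    rw [List.ofFn_succ]
    refine congrArg₂ List.cons ?_ ?_
    · rw [hev]
      exact ev_up_last f 0
    · refine congrArg List.ofFn (funext fun j => ?_)
      show ev 0 _ ((run (up f ++ [(Fin.last n, false)]))^[(j.succ : ℕ)] (Fin.last (n + 1))) = _
      rw [Fin.val_succ, hr2 j (by omega), hev, ev_up_cast]
  rw [← hblk, hGH.2 _ _ _ hK' hd', hGH.1.stab n f hK hd, ← hb, hGH.2 _ _ _ hK hd]

end Pool.Agent.H34.LNT
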