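import Pool.Agent.H13.LN.Targets

/-!
# Row HEX: existence of the function on lists of blocks
-/

set_option autoImplicit false

namespace Pool.Agent.H34.LNT

open Finset Pool.Agent.H59.LIN Pool.Agent.H13.LN

theorem hex (hC1 : T_C1) (_hBLV : T_BLV) : T_HEX := by
  classical
  intro B _ d g hg
  let P : List (List ℕ) → Prop := fun L => ∃ (n : ℕ) (f : Wd n) (p : Fin (n + 1)),
    Knot f ∧ nd f = d ∧ blk f p = L
  refine ⟨fun L => if h : P L then g h.choose h.choose_spec.choose else 0, hg, ?_⟩
  intro n f p hf hd
  have hP : P (blk f p) := ⟨n, f, p, hf, hd, rfl⟩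
  show (if h : P (blk f p) then g h.choose h.choose_spec.choose else 0) = g n f
  rw [dif_pos hP]
  obtain ⟨p', hf', hd', hb⟩ := hP.choose_spec.choose_spec
  generalize hP.choose_spec.choose = f' at p' hf' hd' hb ⊢
  generalize hP.choose = n' at f' p' hf' hd' hb ⊢
  have hn : n' = n := by
    have h1 : (blk f' p').length = n' + 1 := List.length_ofFn
    have h2 : (blk f p).length = n + 1 := List.length_ofFn
    rw [hb, h2] at h1
    omega
  subst hn
  exact hC1 B d g hg n' f' f p' p hf' hf hd' hb

end Pool.Agent.H34.LNT
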