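import Pool.Agent.H13.LN.Targets

/-!
# Row HRO: rotation of the blocks
-/

set_option autoImplicit false

namespace Pool.Agent.H34.LNT

open Finset Pool.Agent.H59.LIN Pool.Agent.H13.LN

theorem hro (hC2 : T_C2) (hBL2 : T_BL2) (hBLV : T_BLV) : T_HRO := by
  intro B _ d g H hGH b L hL
  obtain ⟨f, hd, h1, h2⟩ := hC2 d L.length (b :: L) (Equiv.refl _) hL rfl
  obtain ⟨hK, hb⟩ := hBL2 L.length (b :: L) (Equiv.refl _) f rfl h1 h2
  have h3 := (hBLV L.length f 0 hK).2.2.1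
  have h4 : blk f 0 = b :: L := hb
  rw [h4, List.rotate_cons_succ, List.rotate_zero] at h3
  rw [← h3, ← h4, hGH.2 _ f _ hK hd, hGH.2 _ f _ hK hd]

end Pool.Agent.H34.LNT
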