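import Pool.Agent.H13.LN.Targets

/-!
# Row MAH: functions modulo prime powers are combinations of binomial coefficients
-/

set_option autoImplicit false

namespace Pool.Agent.H34.LNT

open Finset Pool.Agent.H59.LIN Pool.Agent.H13.LN
open fwdDiff_aux

/-- the difference operator is nilpotent -/
theorem diff_nil (p a : ℕ) (hp : p.Prime) :
    fwdDiffₗ (ZMod (p ^ a)) (ZMod (p ^ (a + 1))) 1 ^ (p ^ a * (a + 1)) = 0 := by
  set D : Module.End ℤ (ZMod (p ^ a) → ZMod (p ^ (a + 1))) :=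
    fwdDiffₗ (ZMod (p ^ a)) (ZMod (p ^ (a + 1))) 1 with hD
  have h1 : (D + 1) ^ p ^ a = 1 := by
    refine LinearMap.ext fun f => funext fun y => ?_
    have h2 := shiftₗ_pow_apply (M := ZMod (p ^ a)) (G := ZMod (p ^ (a + 1))) 1 f (p ^ a) y
    have h3 : ((p ^ a) • (1 : ZMod (p ^ a))) = 0 := by
      rw [nsmul_eq_mul, mul_one]
      exact ZMod.natCast_self _
    rw [h3, add_zero] at h2
    exact h2
  obtain ⟨r, hr⟩ : ∃ r, (D + 1) ^ p ^ a = D ^ p ^ a + 1 ^ p ^ a +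
      (p : Module.End ℤ (ZMod (p ^ a) → ZMod (p ^ (a + 1)))) * r := by
    obtain ⟨r, hr⟩ := (Commute.one_right D).exists_add_pow_prime_pow_eq hp a
    exact ⟨D * 1 * r, by rw [hr, mul_assoc, mul_assoc, mul_assoc]⟩
  have h4 : D ^ p ^ a = (p : Module.End ℤ (ZMod (p ^ a) → ZMod (p ^ (a + 1)))) * (-r) := by
    rw [h1, one_pow] at hr
    have h5 : D ^ p ^ a + (p : Module.End ℤ (ZMod (p ^ a) → ZMod (p ^ (a + 1)))) * r = 0 := by
      have h6 : (D ^ p ^ a + (p : Module.End ℤ (ZMod (p ^ a) → ZMod (p ^ (a + 1)))) * r) + 1 =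
          0 + 1 := by
        rw [zero_add, add_right_comm]
        exact hr.symm
      exact add_right_cancel h6
    rw [mul_neg]
    exact eq_neg_of_add_eq_zero_left h5
  rw [pow_mul, h4, (Nat.cast_commute p (-r)).mul_pow, ← Nat.cast_pow]
  have h7 : ((p ^ (a + 1) : ℕ) : Module.End ℤ (ZMod (p ^ a) → ZMod (p ^ (a + 1)))) = 0 := by
    refine LinearMap.ext fun f => funext fun y => ?_
    rw [Module.End.natCast_apply]
    show (p ^ (a + 1)) • f y = 0
    rw [nsmul_eq_mul, ZMod.natCast_self, zero_mul]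
  rw [h7, zero_mul]

theorem mah : T_MAH := by
  intro p a hp s
  refine ⟨p ^ a * (a + 1), fun j => (fwdDiff (1 : ZMod (p ^ a)))^[j] s 0, fun n => ?_⟩
  have h1 := shift_eq_sum_fwdDiff_iter (1 : ZMod (p ^ a)) s n 0
  rw [zero_add, nsmul_eq_mul, mul_one] at h1
  rw [h1]
  have h2 : ∀ j, p ^ a * (a + 1) ≤ j → (fwdDiff (1 : ZMod (p ^ a)))^[j] s 0 = 0 := by
    intro j hj
    have h3 := coe_fwdDiffₗ_pow (M := ZMod (p ^ a)) (G := ZMod (p ^ (a + 1))) 1 j
    obtain ⟨t, rfl⟩ := Nat.exists_eq_add_of_le hj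
    rw [pow_add (fwdDiffₗ (ZMod (p ^ a)) (ZMod (p ^ (a + 1))) 1) (p ^ a * (a + 1)) t,
      diff_nil p a hp, zero_mul] at h3
    rw [← h3]
    rfl
  have h3 : ∀ j, ((n.choose j : ℕ) : ZMod (p ^ (a + 1))) * (fwdDiff (1 : ZMod (p ^ a)))^[j] s 0 =
      n.choose j • (fwdDiff (1 : ZMod (p ^ a)))^[j] s 0 := fun j => (nsmul_eq_mul _ _).symm
  rw [sum_congr rfl fun j _ => h3 j]
  rcases le_total (n + 1) (p ^ a * (a + 1)) with h | h
  · refine sum_subset (range_subset_range.mpr h) fun j _ hj => ?_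
    rw [Nat.choose_eq_zero_of_lt (by rw [mem_range] at hj; omega), zero_smul]
  · refine (sum_subset (range_subset_range.mpr h) fun j _ hj => ?_).symm
    rw [h2 j (by rw [mem_range] at hj; omega), smul_zero]

end Pool.Agent.H34.LNT
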